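import Pool.Agent.H63.SEP.Stmts

/-!
Project SEP, module ACG: actions of functions which agree on the base.
-/

set_option linter.unusedVariables false
set_option synthInstance.maxSize 100000

namespace SW.SEP

open SW

section
variable {M : Type} [SetStr M] [ZF M]

theorem hx_emp (g : M) : hx g emp = emp := by
  unfold hx
  exact the_eq (p := fun y : M => ((emp : M) = emp ∧ y = emp) ∨ (¬ (emp : M) = emp ∧
    y = app g emp)) (Or.inl ⟨rfl, rfl⟩) fun z hz => by
      rcases hz with h | h
      · exact h.2
      · exact absurd rfl h.1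

theorem hx_ne (g : M) {a : M} (h : a ≠ emp) : hx g a = app g a := by
  unfold hx
  exact the_eq (p := fun y : M => (a = emp ∧ y = emp) ∨ (¬ a = emp ∧ y = app g a))
    (Or.inr ⟨h, rfl⟩) fun z hz => by
      rcases hz with h1 | h1
      · exact absurd h1.1 h
      · exact h1.2

/-- first components of the atoms of a condition -/
theorem fst_atom {B p a : M} (hp : E p (PS B)) (ha : E a p) : ∃ c w, a = opair c w ∧
    (c = emp ∨ E c B) := by
  have h1 := shp_sub (mem_PS.1 hp).1 a ha
  obtain ⟨c, w, hc, _, rfl⟩ := mem_prod'.1 h1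
  exact ⟨c, w, rfl, (mem_ins.1 hc).symm⟩

theorem act_congr {g g' B p : M} (h : ∀ e, E e B → app g e = app g' e) (hp : E p (PS B))
    (hB : ¬ E emp B) : act g p = act g' p := by
  have key : ∀ a, E a p → opair (hx g (p1 a)) (p2 a) = opair (hx g' (p1 a)) (p2 a) := by
    intro a ha
    obtain ⟨c, w, rfl, hc⟩ := fst_atom hp ha
    rw [p1_opair]
    rcases hc with rfl | hc
    · rw [hx_emp, hx_emp]
    · have hc0 : c ≠ emp := by
        rintro rfl
        exact hB hc
      rw [hx_ne g hc0, hx_ne g' hc0, h c hc]
  unfold act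
  refine ext fun z => ?_
  rw [mem_img, mem_img]
  refine exists_congr fun a => and_congr_right fun ha => ?_
  rw [key a ha]

theorem actn_congr {g g' B X τ : M} (h : ∀ e, E e B → app g e = app g' e) (hτ : Nm B X τ)
    (hB : ¬ E emp B) : actn g τ = actn g' τ := by
  unfold actn
  refine ext fun z => ?_
  rw [mem_img, mem_img]
  refine exists_congr fun t => and_congr_right fun ht => ?_
  obtain ⟨q, a, hq, _, rfl⟩ := hτ.2 t ht
  rw [p1_opair, act_congr h hq hB]

end

theorem sep_acg : ACGStmt := by
  intro M _ _ g g' B h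
  refine ⟨fun p hp hB => act_congr h hp hB, fun X τ hτ hB => actn_congr h hτ hB, ?_⟩
  unfold ig
  refine ext fun z => ?_
  rw [mem_img, mem_img]
  refine exists_congr fun d => and_congr_right fun hd => ?_
  rw [h d hd]

end SW.SEP
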