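import Pool.Agent.H63.SEP.Stmts

/-!
Project SEP, module ATM: elementary facts about atoms, indices and systems.
-/

set_option linter.unusedVariables false
set_option synthInstance.maxSize 100000

namespace SW.SEP

open SW

section
variable {M : Type} [SetStr M] [ZF M]

theorem opair_ne_emp (a b : M) : opair a b ≠ emp := by
  intro h
  have h1 : E (sing a) (opair a b) := by simp [opair]
  rw [h] at h1
  exact not_mem_emp _ h1

theorem atm_ne01 : (emp : M) ≠ one := by
  intro h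
  have h1 : E (emp : M) one := by unfold one; simp
  rw [← h] at h1
  exact not_mem_emp _ h1

theorem atm_ne02 : (emp : M) ≠ two := by
  intro h
  have h1 : E (emp : M) two := by unfold two; simp
  rw [← h] at h1
  exact not_mem_emp _ h1

theorem atm_ne12 : (one : M) ≠ two := by
  intro h
  have h1 : E (one : M) two := by unfold two one; simp
  rw [← h] at h1
  exact not_mem_self _ h1

theorem nc_not_code {e : M} (h : Nc e) : ¬ IsC e := by
  rintro ⟨B, r, q, x, i, t, rfl⟩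
  rcases h with ⟨B', t', h⟩ | ⟨B', T0, T1, t', h⟩
  · simp only [cod, lbl, opair_inj] at h
    exact atm_ne12 h.1
  · simp only [cod, rul, opair_inj] at h
    exact atm_ne01 h.1.symm

theorem cod_inj {B r q x i t B' r' q' x' i' t' : M} :
    cod B r q x i t = cod B' r' q' x' i' t' ↔
    B = B' ∧ r = r' ∧ q = q' ∧ x = x' ∧ i = i' ∧ t = t' := by
  simp only [cod, opair_inj, true_and]

theorem rul_inj {B T0 T1 t B' T0' T1' t' : M} : rul B T0 T1 t = rul B' T0' T1' t' ↔
    B = B' ∧ T0 = T0' ∧ T1 = T1' ∧ t = t' := by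
  simp only [rul, opair_inj, true_and]

theorem lbl_inj {B t B' t' : M} : lbl B t = lbl B' t' ↔ B = B' ∧ t = t' := by
  simp only [lbl, opair_inj, true_and]

theorem atm_ne_emp {e : M} (h : LVL e ∨ LVR e ∨ LVC e) : e ≠ emp := by
  rcases h with ⟨B, t, rfl, _⟩ | ⟨B, T0, T1, t, rfl, _⟩ | ⟨B, r, q, x, i, t, rfl, _⟩
  · exact opair_ne_emp _ _
  · exact opair_ne_emp _ _
  · exact opair_ne_emp _ _

theorem atm_sysub {J B : M} (hJ : Sy J) (h : Sub B J) (hB : ClB B) : Sy B :=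
  fun e he => ⟨hB e he, (hJ e (h e he)).2⟩

theorem atm_sybun {J K : M} (hJ : Sy J) (hK : Sy K) : Sy (bun J K) := by
  intro e he
  rcases mem_bun.1 he with h | h
  · exact ⟨fun z hz => mem_bun.2 (Or.inl ((hJ e h).1 z hz)), (hJ e h).2⟩
  · exact ⟨fun z hz => mem_bun.2 (Or.inr ((hK e h).1 z hz)), (hK e h).2⟩

theorem atm_base {e : M} (h : LVL e ∨ LVR e ∨ LVC e) : (Nc e ∨ IsC e) ∧ Cb (bs e) ∧
    ClB (bs e) := by
  rcases h with ⟨B, t, rfl, h1, h2⟩ | ⟨B, T0, T1, t, rfl, h1, h2, _⟩ |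
    ⟨B, r, q, x, i, t, rfl, h1, h2, _⟩
  · rw [bs_lbl]
    exact ⟨Or.inl (Or.inl ⟨B, t, rfl⟩), h1, h2⟩
  · rw [bs_rul]
    exact ⟨Or.inl (Or.inr ⟨B, T0, T1, t, rfl⟩), h1, h2⟩
  · rw [bs_cod]
    exact ⟨Or.inr ⟨B, r, q, x, i, t, rfl⟩, h1, h2⟩

theorem atm_code {B r q x i t : M}
    (h : LVL (cod B r q x i t) ∨ LVR (cod B r q x i t) ∨ LVC (cod B r q x i t)) :
    Cb B ∧ ClB B ∧ E r B ∧ Nc r ∧ E q (PS B) ∧ Nm B (prod om om) x ∧ Tot B q x ∧ Fun B q x ∧
      E i two := by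
  rcases h with ⟨B', t', h, _⟩ | ⟨B', T0, T1, t', h, _⟩ | ⟨B', r', q', x', i', t', h, h1⟩
  · exact absurd ⟨B, r, q, x, i, t, rfl⟩ (nc_not_code (Or.inl ⟨B', t', h⟩))
  · exact absurd ⟨B, r, q, x, i, t, rfl⟩ (nc_not_code (Or.inr ⟨B', T0, T1, t', h⟩))
  · obtain ⟨rfl, rfl, rfl, rfl, rfl, rfl⟩ := cod_inj.1 h
    exact h1

theorem atm_lr {e : M} (h : IsL e) : ¬ IsR e := by
  rintro ⟨B, T0, T1, t, rfl⟩
  obtain ⟨B', t', h⟩ := h
  simp only [rul, lbl, opair_inj] at h
  exact atm_ne02 h.1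

theorem atm_rule {B T0 T1 t : M}
    (h : LVL (rul B T0 T1 t) ∨ LVR (rul B T0 T1 t) ∨ LVC (rul B T0 T1 t)) :
    Cb B ∧ ClB B ∧ Nm B Q4 T0 ∧ Nm B Q4 T1 := by
  rcases h with ⟨B', t', h, _⟩ | ⟨B', T0', T1', t', h, h1⟩ | ⟨B', r', q', x', i', t', h, h1⟩
  · exact absurd ⟨B, T0, T1, t, rfl⟩ (atm_lr ⟨B', t', h⟩)
  · obtain ⟨rfl, rfl, rfl, rfl⟩ := rul_inj.1 h
    exact h1
  · exact absurd ⟨B', r', q', x', i', t', h⟩ (nc_not_code (Or.inr ⟨B, T0, T1, t, rfl⟩))

theorem bs_of_not {e : M} (h : ¬ ∃ k B r, e = opair k (opair B r)) : bs e = emp := by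
  unfold bs the
  rw [dif_neg]
  rintro ⟨B, ⟨k, r, h1⟩, _⟩
  exact h ⟨k, B, r, h1⟩

/-- no cycles of length five -/
theorem no_cycle5 {a b c d e : M} (h1 : E a b) (h2 : E b c) (h3 : E c d) (h4 : E d e)
    (h5 : E e a) : False := by
  obtain ⟨z, hz, hz'⟩ := ZF.found (ins a (ins b (ins c (ins d (sing e))))) ⟨a, by simp⟩
  simp only [mem_ins, mem_sing] at hz
  rcases hz with (((rfl | rfl) | rfl) | rfl) | rfl
  · exact hz' d (by simp) h4
  · exact hz' c (by simp) h3
  · exact hz' b (by simp) h2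
  · exact hz' a (by simp) h1
  · exact hz' e (by simp) h5

theorem atm_nself {e : M} : ¬ E e (bs e) := by
  by_cases h : ∃ k B r, e = opair k (opair B r)
  · obtain ⟨k, B, r, rfl⟩ := h
    rw [bs_opair]
    intro h1
    have h2 : E B (sing B) := by simp
    have h3 : E (sing B) (opair B r) := by simp [opair]
    have h4 : E (opair B r) (upair k (opair B r)) := by simp
    have h5 : E (upair k (opair B r)) (opair k (opair B r)) := by
      rw [show opair k (opair B r) = upair (sing k) (upair k (opair B r)) from rfl]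
      simp
    exact no_cycle5 h1 h2 h3 h4 h5
  · rw [bs_of_not h]
    exact not_mem_emp _

end

theorem sep_atm : ATMStmt := by
  intro M _ _
  refine
    { ne01 := atm_ne01
      ne02 := atm_ne02
      ne12 := atm_ne12
      mem2 := ?_
      RR := ?_
      VV := ?_
      FF := ?_
      VF := ?_
      RV := ?_
      RF := ?_
      nc := nc_not_code
      lr := atm_lr
      cd := cod_inj
      rl := rul_inj
      lb := lbl_inj
      sy0 := fun hJ h => atm_ne_emp (hJ _ h).2 rfl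
      sye := ?_
      sycd := ?_
      syrl := ?_
      sysub := atm_sysub
      sybun := atm_sybun
      nself := atm_nself }
  · intro i
    unfold two one
    exact mem_upair
  · intro s τ b s' τ' b'
    simp only [gR, opair_inj, true_and]
  · intro e v e' v'
    simp only [lV, opair_inj, true_and]
  · intro e z j e' z' j'
    simp only [lF, opair_inj, true_and]
  · intro e v e' z j h
    simp only [lV, lF, opair_inj] at h
    exact atm_ne01 h.2.1
  · intro s τ b e v h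
    simp only [gR, lV, opair_inj] at h
    exact atm_ne02 h.2.1.symm
  · intro s τ b e z j h
    simp only [gR, lF, opair_inj] at h
    exact atm_ne12 h.2.1.symm
  · intro J e hJ he
    obtain ⟨h1, h2⟩ := hJ e he
    obtain ⟨h3, h4, h5⟩ := atm_base h2
    exact ⟨atm_ne_emp h2, h3, h4, h5, h1, atm_sysub hJ h1 h5⟩
  · intro J B r q x i t hJ he
    obtain ⟨h1, h2⟩ := hJ _ he
    rw [bs_cod] at h1
    obtain ⟨h3, h4, h5⟩ := atm_code h2
    exact ⟨h3, h4, h1, atm_sysub hJ h1 h4, h5⟩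
  · intro J B T0 T1 t hJ he
    obtain ⟨h1, h2⟩ := hJ _ he
    rw [bs_rul] at h1
    obtain ⟨h3, h4, h5⟩ := atm_rule h2
    exact ⟨h3, h4, h1, atm_sysub hJ h1 h4, h5⟩

end SW.SEP
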